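import Pool.Agent.H88.MCR.Stmts2

/-!
Row CLU of the board `mcr`: the effect of cloning `v` on a vertex `u ≠ v`.
-/

namespace Pool.MCR

theorem clu_last {L : Type} (m : List L) : ∀ (h z : L) (s : Bool),
    (xor s (Nat.bodd m.length), m.getLastD h, z) ∈ arcs s (h :: (m ++ [z])) := by
  induction m with
  | nil =>
    intro h z s
    simp [arcs]
  | cons c m ih =>
    intro h z s
    have := ih c z (!s)
    rw [List.cons_append]
    show _ ∈ (s, h, c) :: arcs (!s) (c :: (m ++ [z]))
    refine List.mem_cons_of_mem _ ?_
    rw [List.getLastD_cons, List.length_cons, Nat.bodd_succ]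
    convert this using 2
    cases s <;> cases Nat.bodd m.length <;> rfl

theorem clu_shift {L : Type} (t : List L) : ∀ (c : L) (s : Bool) (d : L ×ₗ ℤ),
    (shift s (c :: t)).getLastD d =
      lp (t.getLastD c) (if xor s (Nat.bodd t.length) = true then 1 else -1) := by
  induction t with
  | nil =>
    intro c s d
    simp [shift]
  | cons c' t ih =>
    intro c s d
    have := ih c' (!s) (lp c (if s then 1 else -1))
    show (lp c (if s then 1 else -1) :: shift (!s) (c' :: t)).getLastD d = _
    rw [List.getLastD_cons, this, List.getLastD_cons, List.length_cons, Nat.bodd_succ]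
    cases s <;> cases Nat.bodd t.length <;> rfl

theorem clu_shift_length {L : Type} (t : List L) : ∀ s : Bool, (shift s t).length = t.length := by
  induction t with
  | nil => intro s; rfl
  | cons c t ih =>
    intro s
    show (shift (!s) t).length + 1 = t.length + 1
    rw [ih]

theorem clu_head_reverse {α : Type} (l : List α) (d : α) : l.reverse.headD d = l.getLastD d := by
  rw [List.headD_eq_head?_getD, List.getLastD_eq_getLast?, List.head?_reverse]

theorem clu_thm (kit : KIT_S) : CLU_S := by
  intro L _ n D v u r hD hv hu huv _hr hS1 hS2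
  have hun : u ≠ n := Nat.ne_of_lt hu
  have hlast := clu_last (D.E v u) (D.pos v) (D.pos u) (D.S v u)
  have hlast' : (xor (D.S v u) (Nat.bodd (D.E v u).length), (D.E v u).getLastD (D.pos v), D.pos u) ∈
      D.A v u := hlast
  have hrev := hD.symA v hv u hu (Ne.symm huv) _ _ _ hlast'
  obtain ⟨_, _, _, k4, _⟩ := (kit L n D hD).1 u hu v hv huv
  obtain ⟨_, _, _, _, _, k5⟩ := k4 _ _ _ hrev
  obtain ⟨e1, e2⟩ := k5 rfl
  rw [hS1, hS2] at e1
  have hodd : Nat.bodd (D.E v u).length = true := by
    revert e1
    cases Nat.bodd (D.E v u).length <;> simp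
  obtain ⟨c, t, hct⟩ : ∃ c t, D.E v u = c :: t := by
    cases h : D.E v u with
    | nil => simp [h] at hodd
    | cons c t => exact ⟨c, t, rfl⟩
  have hnew : newE D v r u = lp (D.pos v) (-r u) :: shift true (c :: t) := by
    unfold newE
    rw [if_neg huv, hS1, if_pos rfl, hct]
    rfl
  have hodd' : Nat.bodd t.length = false := by
    rw [hct, List.length_cons, Nat.bodd_succ] at hodd
    revert hodd
    cases Nat.bodd t.length <;> simp
  refine ⟨?_, ?_, ?_, ?_⟩
  · show (if u = n then _ else _) = _
    rw [if_neg hun]
  · intro y hy _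
    have hyn : y ≠ n := Nat.ne_of_lt hy
    refine ⟨?_, ?_⟩
    · show (if u = n then _ else _) = _
      rw [if_neg hun, if_neg hyn]
    · show ((if u = n then _ else if y = n then _ else (D.E u y).map (fun c => lp c 0)) :
        List (L ×ₗ ℤ)).headD (if y = n then _ else lp (D.pos y) 0) = lp ((D.E u y).headD (D.pos y)) 0
      rw [if_neg hun, if_neg hyn, if_neg hyn]
      cases D.E u y <;> rfl
  · show (if u = n then _ else if n = n then
      xor (if u = v then true else false) (Nat.bodd (newE D v r u).length) else _) = false
    rw [if_neg hun, if_pos rfl, if_neg huv, hnew, List.length_cons, clu_shift_length,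
      List.length_cons, Nat.bodd_succ, Nat.bodd_succ, hodd']
    rfl
  · show ((if u = n then _ else if n = n then (newE D v r u).reverse else _) :
        List (L ×ₗ ℤ)).headD _ = lp (D.nx u v) 1
    rw [if_neg hun, if_pos rfl, clu_head_reverse, hnew, List.getLastD_cons, clu_shift, hodd', ← e2,
      hct, List.getLastD_cons]
    rfl

end Pool.MCR
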