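import Pool.Agent.H88.MCR.Stmts

/-!
Row CPT of the board `mcr`: no three edges of a generic good diagram have a common point off the
spine.
-/

namespace Pool.MCR

theorem cpt_pt {n : ℕ} {D : Diag ℝ} {x y : ℕ} (hx : x < n) (hy : y < n) (hxy : x ≠ y) {c : ℝ}
    (h : c ∈ D.P x y) : Pt n D c := by
  unfold Diag.P at h
  rcases List.mem_cons.1 h with h | h
  · exact Or.inl ⟨x, hx, h⟩
  · rcases List.mem_append.1 h with h | h
    · exact Or.inr ⟨x, hx, y, hy, hxy, h⟩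
    · exact Or.inl ⟨y, hy, by simpa using h⟩

theorem cpt_unique (kit : KIT_S) (in0 : IN0_S) {n : ℕ} {D : Diag ℝ} (hD : Good n D) {x y : ℕ}
    (hx : x < n) (hy : y < n) (hxy : x ≠ y) {A A' : Arc ℝ} (hA : A ∈ D.A x y)
    (hA' : A' ∈ D.A x y) {p : ℝ × ℝ} (hp : p ∈ arcSet A.1 A.2.1 A.2.2)
    (hp' : p ∈ arcSet A'.1 A'.2.1 A'.2.2) (h0 : p.2 ≠ 0) : A = A' := by
  by_contra hne
  obtain ⟨s, a, b⟩ := A
  obtain ⟨s', c, d⟩ := A'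
  obtain ⟨_, _, _, k4, k5⟩ := (kit ℝ n D hD).1 x hx y hy hxy
  have h1 := k4 s a b hA
  have h2 := k4 s' c d hA'
  apply h0
  refine (in0 s s' a b c d h1.2.2.1 h2.2.2.1 ?_ ?_ ?_ p hp hp').1
  · exact hD.self x hx y hy hxy _ hA _ hA'
  · rintro ⟨rfl, rfl, rfl⟩
    exact hne rfl
  · rintro ⟨rfl, rfl, rfl⟩
    have := k5 s a b b a hA hA' (fun h => h1.2.2.1 h.1)
    exact this.2.1 rfl

theorem cpt_thm (cpp : CPP_S) (kit : KIT_S) (ept : EPT_S) (inb : INB_S) (in0 : IN0_S) :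
    CPT_S := by
  intro n D hD hgen x hx y hy z hz t ht u hu v hv hxy hzt huv n1 n2 n3 n4 n5 n6 p p1 p2 p3
  by_contra h0
  have get : ∀ {x y z t : ℕ}, x < n → y < n → z < n → t < n → x ≠ y → z ≠ t →
      ¬ (x = z ∧ y = t) → ¬ (x = t ∧ y = z) → p ∈ curve (D.A x y) → p ∈ curve (D.A z t) →
      ∃ A ∈ D.A x y, ∃ B ∈ D.A z t, Cross A B ∧ p ∈ arcSet A.1 A.2.1 A.2.2 ∧
        p ∈ arcSet B.1 B.2.1 B.2.2 := by
    intro x y z t hx hy hz ht hxy hzt m1 m2 q1 q2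
    rcases (cpp n D hD x hx y hy z hz t ht hxy hzt m1 m2).2 p q1 q2 with h | h
    · exact absurd h.1 h0
    · exact h.2.1
  obtain ⟨A, hA, B, hB, hAB, pA, pB⟩ := get hx hy hz ht hxy hzt n1 n2 p1 p2
  obtain ⟨A', hA', C, hC, hAC, pA', pC⟩ := get hx hy hu hv hxy huv n3 n4 p1 p3
  obtain ⟨B', hB', C', hC', hBC, pB', pC'⟩ := get hz ht hu hv hzt huv n5 n6 p2 p3
  obtain rfl := cpt_unique kit in0 hD hx hy hxy hA hA' pA pA' h0
  obtain rfl := cpt_unique kit in0 hD hz ht hzt hB hB' pB pB' h0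
  obtain rfl := cpt_unique kit in0 hD hu hv huv hC hC' pC pC' h0
  obtain ⟨s, a, b⟩ := A
  obtain ⟨s', c, d⟩ := B
  obtain ⟨s'', e, f⟩ := C
  obtain ⟨e1, i1⟩ := hAB
  obtain ⟨e2, i2⟩ := hAC
  obtain ⟨-, i3⟩ := hBC
  simp only at e1 e2 i1 i2 i3
  subst e1
  subst e2
  have j1 := (inb ℝ a b c d).2.2.2 i1
  have j2 := (inb ℝ a b e f).2.2.2 i2
  have j3 := (inb ℝ c d e f).2.2.2 i3
  obtain ⟨_, _, _, kA, _⟩ := (kit ℝ n D hD).1 x hx y hy hxy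
  obtain ⟨_, _, _, kB, _⟩ := (kit ℝ n D hD).1 z hz t ht hzt
  obtain ⟨_, _, _, kC, _⟩ := (kit ℝ n D hD).1 u hu v hv huv
  have mA := kA s a b hA
  have mB := kB s c d hB
  have mC := kC s e f hC
  refine hgen a b c d e f (cpt_pt hx hy hxy mA.1) (cpt_pt hx hy hxy mA.2.1)
    (cpt_pt hz ht hzt mB.1) (cpt_pt hz ht hzt mB.2.1) (cpt_pt hu hv huv mC.1)
    (cpt_pt hu hv huv mC.2.1) ?_ ((ept s a b).2.2 c d e f p pA pB pC)
  obtain ⟨q1, q2, q3, q4, q5, q6⟩ := j1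
  obtain ⟨_, r2, r3, r4, r5, r6⟩ := j2
  obtain ⟨_, s2, s3, s4, s5, _⟩ := j3
  simp only [List.nodup_cons, List.mem_cons, List.not_mem_nil, or_false, not_or,
    not_false_eq_true, List.nodup_nil, and_true]
  exact ⟨⟨q1, q2, q3, r2, r3⟩, ⟨q4, q5, r4, r5⟩, ⟨q6, s2, s3⟩, ⟨s4, s5⟩, r6⟩

end Pool.MCR
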